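import Pool.Agent.MWK.Stmts

/-! # Squad MWK (MP_23468a_al), row LVS -/

set_option autoImplicit false

namespace Pool.Agent.MWK.H26

open Pool.Agent.Helper14_MV Pool.Agent.Helper2_MV

theorem lvs (hSFA : SfaStmt) (hSFB : SfbStmt) (hTGF : TgfStmt) (hSBA : SbaStmt) (hSBB : SbbStmt)
    (hTGB : TgbStmt) (hSDA : SdaStmt) (hSDB : SdbStmt) (hTGD : TgdStmt) (hSAA : SaaStmt)
    (hSAB : SabStmt) (hTGA : TgaStmt) : LvsStmt := by
  intro θ hK m u v huv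
  have hor : ∀ u' v' : List ℕ, ((u' = u ∧ v' = v) ∨ (u' = v ∧ v' = u)) → RR θ u' v' := by
    rintro u' v' (⟨rfl, rfl⟩ | ⟨rfl, rfl⟩)
    · exact huv
    · exact huv.symm
  refine ⟨?_, ?_⟩
  · intro j hj h1 h2
    match j, hj, h1, h2 with
    | 0, _, h1, h2 =>
      obtain ⟨x, y, cs, hl, a1, a2, a3, a4, a5, a6⟩ := hSFA m u v h1 h2
      exact hTGF θ m (hSFB θ hK m u v x y cs huv hl a1 a2 a3 a4 a5 a6)
    | 1, _, h1, h2 =>
      obtain ⟨u', v', ho, x, y, cs, hl, a1, a2, a3, a4, a5, a6, a7, a8⟩ := hSBA m u v h1 h2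
      exact hTGB θ hK m (hSBB θ hK m u' v' x y cs (hor u' v' ho) hl a1 a2 a3 a4 a5 a6 a7 a8)
    | e + 2, hj, h1, h2 =>
      obtain ⟨u', v', ho, x, d, y, cs, hl, a1, a2, a3, a4, a5, a6, a7, a8, a9, a10, a11, a12, a13,
        a14⟩ := hSDA m (e + 1) u v (by omega) (by omega) h1 h2
      have hR := hor u' v' ho
      exact hTGD θ hK m (e + 1) (by omega) (by omega)
        (hSAB θ hK m u' v' x y cs hR hl a5 a6 a7 a8 a9 a10 a11 a12)
        (hSDB θ hK m (e + 1) u' v' x d y cs (by omega) hR hl a1 a2 a3 a4 a5 a6 a7 a8 a9 a10 a11 a12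
          a13 a14)
  · intro h1 h2
    obtain ⟨u', v', ho, x, y, cs, hl, a1, a2, a3, a4, a5, a6, a7, a8⟩ := hSAA m u v h1 h2
    exact hTGA θ hK m (hSAB θ hK m u' v' x y cs (hor u' v' ho) hl a1 a2 a3 a4 a5 a6 a7 a8)

end Pool.Agent.MWK.H26
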